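import Pool.Agent.Run7.h495.SV.Stm
/-! # Piece INF (helper617) -/
set_option autoImplicit false
open MeasureTheory Set Filter Topology Metric Module
open scoped ENNReal RealInnerProductSpace ContDiff

namespace Pool.Agent.Run7.h617.SV
open Pool.Agent.Run7.h495.SV

theorem vol_strip (n : ℕ) (i₀ : Fin n) (X : ℝ) :
    volume {x : Eu n | (∀ i, i ≠ i₀ → |x i| ≤ 1) ∧ X < x i₀} = ⊤ := by
  classical
  let s : Fin n → Set ℝ := fun i => if i = i₀ then Ioi X else Icc (-1) 1
  have hs : ∀ i, MeasurableSet (s i) := by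
    intro i
    simp only [s]
    split_ifs
    · exact measurableSet_Ioi
    · exact measurableSet_Icc
  have e : {x : Eu n | (∀ i, i ≠ i₀ → |x i| ≤ 1) ∧ X < x i₀} =
      (WithLp.ofLp : Eu n → (Fin n → ℝ)) ⁻¹' (Set.pi univ s) := by
    ext x
    constructor
    · rintro ⟨h1, h2⟩ i -
      by_cases hi : i = i₀
      · have e1 : s i = Ioi X := by simp only [s, if_pos hi]
        rw [e1, hi]
        exact h2
      · have e1 : s i = Icc (-1) 1 := by simp only [s, if_neg hi]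
        rw [e1]
        exact abs_le.1 (h1 i hi)
    · intro h
      refine ⟨fun i hi => ?_, ?_⟩
      · have h3 := h i (mem_univ i)
        have e1 : s i = Icc (-1) 1 := by simp only [s, if_neg hi]
        rw [e1] at h3
        exact abs_le.2 h3
      · have h3 := h i₀ (mem_univ i₀)
        have e1 : s i₀ = Ioi X := by simp only [s, if_true]
        rw [e1] at h3
        exact h3
  rw [e, (PiLp.volume_preserving_ofLp (Fin n)).measure_preimage
    (MeasurableSet.univ_pi hs).nullMeasurableSet, volume_pi_pi,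
    ← Finset.mul_prod_erase _ _ (Finset.mem_univ i₀)]
  have h0 : volume (s i₀) = ⊤ := by
    simp only [s, if_true]
    exact Real.volume_Ioi
  rw [h0]
  refine ENNReal.top_mul ?_
  refine Finset.prod_ne_zero_iff.2 fun i hi => ?_
  have hi' : i ≠ i₀ := (Finset.mem_erase.1 hi).1
  simp only [s, if_neg hi']
  rw [Real.volume_Icc]
  norm_num

theorem t_INF : S_LOW → S_INF := by
  intro hLOW n hn q hq c hc
  have hn0 : 0 < n := by omega
  obtain ⟨c', hc', hlow⟩ := hLOW n ⟨0, hn0⟩ q hq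
  set i₀ : Fin n := ⟨0, hn0⟩ with hi₀
  have hnR : (3:ℝ) ≤ n := by exact_mod_cast hn
  have hexp : 0 < (n:ℝ) + q - 3 := by linarith
  -- X large
  have hT : Tendsto (fun t : ℝ => t ^ (-((n:ℝ) + q - 3))) atTop (𝓝 0) :=
    tendsto_rpow_neg_atTop hexp
  obtain ⟨X, hX⟩ := ((hT.eventually (gt_mem_nhds (mul_pos hc hc'))).and
    (eventually_ge_atTop (8:ℝ))).exists_forall_of_atTop
  refine top_le_iff.1 ?_
  rw [← vol_strip n i₀ X]
  refine measure_mono ?_
  rintro x ⟨h1, h2⟩
  obtain ⟨h3, h4⟩ := hX (x i₀) h2.le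
  have h5 := hlow x h1 h4
  have hx0 : 0 < x i₀ := by linarith
  have h6 : x i₀ ≤ ‖x‖ := (le_abs_self _).trans (by
    have := PiLp.norm_apply_le x i₀
    simpa using this)
  have h7 : ‖x‖ ^ (1 - n - q : ℝ) ≤ (x i₀) ^ (1 - n - q : ℝ) :=
    Real.rpow_le_rpow_of_nonpos hx0 h6 (by linarith)
  have h8 : (x i₀) ^ (1 - n - q : ℝ) = (x i₀) ^ (-((n:ℝ) + q - 3)) / (x i₀) ^ 2 := by
    rw [← Real.rpow_natCast, ← Real.rpow_sub hx0]
    congr 1
    push_cast
    ring
  have h9 : ‖x‖ ^ (1 - n - q : ℝ) < c * (c' / (x i₀) ^ 2) := by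
    refine h7.trans_lt ?_
    rw [h8, ← mul_div_assoc]
    exact div_lt_div_of_pos_right h3 (by positivity)
  change ENNReal.ofReal (‖x‖ ^ (1 - n - q : ℝ)) < _
  calc ENNReal.ofReal (‖x‖ ^ (1 - n - q : ℝ)) < ENNReal.ofReal (c * (c' / (x i₀) ^ 2)) :=
        (ENNReal.ofReal_lt_ofReal_iff (by positivity)).2 h9
    _ = ENNReal.ofReal c * ENNReal.ofReal (c' / (x i₀) ^ 2) := ENNReal.ofReal_mul hc.le
    _ ≤ _ := mul_le_mul_right h5 _

end Pool.Agent.Run7.h617.SV
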